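import Pool.Agent.H87.SH.Targets
import Pool.Agent.H39.SN.HES

/-!
# Half of the logarithm for smooth harmonic maps: weighted monotonicity formula (row MON)
-/

set_option autoImplicit false

namespace Pool.Agent.H27.SH

open MeasureTheory Metric Set Filter Topology Pool.Agent.H87.SN Pool.Agent.H87.SH
open scoped ContDiff RealInnerProductSpace ENNReal

open Pool.Agent.H39.SN (nsq_nonneg cont_mul int_mul)

/-- the square of the truncated paraboloid -/
noncomputable def msq {n : ℕ} (v : E n) : ℝ := (max 0 (1 - ‖v‖ ^ 2)) ^ 2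

theorem msq_cont {n : ℕ} : Continuous (msq (n := n)) := by
  unfold msq
  fun_prop

theorem msq_nonneg {n : ℕ} (v : E n) : 0 ≤ msq v := by
  unfold msq
  positivity

theorem msq_le_one {n : ℕ} (v : E n) : msq v ≤ 1 := by
  unfold msq
  refine pow_le_one₀ (le_max_left _ _) (max_le (by norm_num) ?_)
  have := sq_nonneg ‖v‖
  linarith

theorem msq_zero {n : ℕ} {v : E n} (hv : 1 ≤ ‖v‖) : msq v = 0 := by
  unfold msq
  have h1 : 1 - ‖v‖ ^ 2 ≤ 0 := by nlinarith
  rw [max_eq_left h1]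
  norm_num

/-- supports of scaled functions -/
theorem supp_scale {n : ℕ} {g : E n → ℝ} (hg : ∀ v, 1 ≤ ‖v‖ → g v = 0) (x : E n) {r : ℝ}
    (hr : 0 < r) : tsupport (fun y => g (r⁻¹ • (y - x))) ⊆ closedBall x r := by
  refine closure_minimal ?_ isClosed_closedBall
  intro y hy
  by_contra hne
  apply hy
  apply hg
  rw [norm_smul, norm_inv, Real.norm_eq_abs, abs_of_pos hr]
  rw [mem_closedBall, dist_eq_norm] at hne
  push Not at hne
  rw [le_inv_mul_iff₀ hr]
  linarith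

theorem cont_scale {n : ℕ} {g : E n → ℝ} (hg : Continuous g) (x : E n) (r : ℝ) :
    Continuous fun y => g (r⁻¹ • (y - x)) := by
  have h : Continuous fun y : E n => r⁻¹ • (y - x) :=
    (continuous_id.sub continuous_const).const_smul r⁻¹
  exact hg.comp h

theorem int_scale {n : ℕ} {g f : E n → ℝ} (hg : Continuous g) (hg0 : ∀ v, 1 ≤ ‖v‖ → g v = 0)
    {x : E n} {r ρ : ℝ} (hr : 0 < r) (hρ : r < ρ) (hf : ContinuousOn f (ball x ρ)) :
    Integrable fun y => g (r⁻¹ • (y - x)) * f y :=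
  int_mul isOpen_ball (cont_scale hg x r)
    ((isCompact_closedBall x r).of_isClosed_subset (isClosed_tsupport _) (supp_scale hg0 x hr))
    ((supp_scale hg0 x hr).trans (closedBall_subset_ball hρ)) hf

theorem inner_bv {n : ℕ} (v : E n) (i : Fin n) : ⟪v, (bv i : E n)⟫ = v i := by
  unfold bv
  rw [EuclideanSpace.inner_single_right]
  simp

theorem bv_apply {n : ℕ} (i j : Fin n) : (bv i : E n) j = if i = j then 1 else 0 := by
  unfold bv
  rw [PiLp.single_apply]
  by_cases h : i = j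
  · subst h
    simp
  · rw [if_neg h, if_neg (fun h' => h h'.symm)]

theorem eq_sum_bv {n : ℕ} (v : E n) : v = ∑ i, v i • (bv i : E n) := by
  ext j
  rw [WithLp.ofLp_sum, Finset.sum_apply]
  simp [bv_apply]

theorem norm_sq_apply {n m : ℕ} (L : E n →L[ℝ] E m) (v : E n) :
    ‖L v‖ ^ 2 = ∑ i : Fin n, ∑ j : Fin n, ⟪L (bv i), L (bv j)⟫ * (v i * v j) := by
  have h1 : L v = ∑ i, v i • L (bv i) := by
    conv_lhs => rw [eq_sum_bv v]
    rw [map_sum]
    refine Finset.sum_congr rfl fun i _ => ?_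
    rw [map_smul]
  rw [← real_inner_self_eq_norm_sq, h1, sum_inner]
  refine Finset.sum_congr rfl fun i _ => ?_
  rw [inner_sum]
  refine Finset.sum_congr rfl fun j _ => ?_
  rw [real_inner_smul_left, real_inner_smul_right]
  ring

/-- the integrand of the stationarity identity for a radial field -/
theorem statF_eq {n m : ℕ} (L : E n →L[ℝ] E m) (D : E n →L[ℝ] E n) (p q : ℝ) (v : E n)
    (hD : ∀ i j, (D (bv i)) j = p * (if i = j then 1 else 0) - q * (v i * v j)) :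
    statF L D = ((n : ℝ) - 2) * (p * nsq L) - q * (‖v‖ ^ 2 * nsq L) + 2 * (q * ‖L v‖ ^ 2) := by
  unfold statF
  have h1 : ∑ i : Fin n, (D (bv i)) i = n * p - q * ‖v‖ ^ 2 := by
    rw [EuclideanSpace.norm_sq_eq, Finset.mul_sum]
    have e : ∀ i : Fin n, (D (bv i)) i = p - q * ‖v i‖ ^ 2 := by
      intro i
      rw [hD, if_pos rfl, Real.norm_eq_abs, sq_abs]
      ring
    rw [Finset.sum_congr rfl fun i _ => e i, Finset.sum_sub_distrib]
    simp
  have h2 : ∑ i : Fin n, ∑ j : Fin n, ⟪L (bv i), L (bv j)⟫ * (D (bv i)) j =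
      p * nsq L - q * ‖L v‖ ^ 2 := by
    rw [norm_sq_apply]
    unfold nsq
    rw [Finset.mul_sum, Finset.mul_sum, ← Finset.sum_sub_distrib]
    refine Finset.sum_congr rfl fun i _ => ?_
    rw [Finset.mul_sum]
    have e : ∀ j : Fin n, ⟪L (bv i), L (bv j)⟫ * (D (bv i)) j =
        (if i = j then p * ⟪L (bv i), L (bv j)⟫ else 0) -
          q * (⟪L (bv i), L (bv j)⟫ * (v i * v j)) := by
      intro j
      rw [hD]
      by_cases h : i = j
      · rw [if_pos h, if_pos h]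
        ring
      · rw [if_neg h, if_neg h]
        ring
    rw [Finset.sum_congr rfl fun j _ => e j, Finset.sum_sub_distrib, Finset.sum_ite_eq,
      if_pos (Finset.mem_univ i), real_inner_self_eq_norm_sq]
  rw [h1, h2]
  ring

/-- change of variables -/
theorem theta_eq {n m : ℕ} (u : E n → E m) (x : E n) {r : ℝ} (hr : 0 < r) :
    theta u x r = r ^ 2 * (r ^ n)⁻¹ * ∫ y, phi (r⁻¹ • (y - x)) * en u y := by
  unfold theta
  rw [integral_const_mul, mul_assoc]
  congr 1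
  have h1 : ∀ v : E n, en u (x + r • v) * phi v =
      (fun w : E n => phi (r⁻¹ • ((x + w) - x)) * en u (x + w)) (r • v) := by
    intro v
    show _ = phi (r⁻¹ • ((x + r • v) - x)) * en u (x + r • v)
    rw [add_sub_cancel_left, smul_smul, inv_mul_cancel₀ hr.ne', one_smul]
    ring
  rw [integral_congr_ae (Eventually.of_forall h1),
    Measure.integral_comp_smul volume (fun w : E n => phi (r⁻¹ • ((x + w) - x)) * en u (x + w)) r,
    integral_add_left_eq_self (fun w : E n => phi (r⁻¹ • (w - x)) * en u w) x, smul_eq_mul,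
    finrank_euclideanSpace_fin, abs_of_pos (by positivity)]

/-- derivative of the weight in the scale -/
theorem phi_deriv {n : ℕ} (hφ : ContDiff ℝ 1 (phi (n := n)))
    (hφ' : ∀ v w : E n, fderiv ℝ phi v w = - (6 * (max 0 (1 - ‖v‖ ^ 2)) ^ 2 * ⟪v, w⟫))
    (w : E n) {r : ℝ} (hr : 0 < r) :
    HasDerivAt (fun s : ℝ => phi (s⁻¹ • w))
      (6 * msq (r⁻¹ • w) * ‖r⁻¹ • w‖ ^ 2 * r⁻¹) r := by
  have h1 : HasDerivAt (fun s : ℝ => s⁻¹ • w) ((-(r ^ 2)⁻¹) • w) r :=
    (hasDerivAt_inv hr.ne').smul_const w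
  have h2 : HasFDerivAt phi (fderiv ℝ phi (r⁻¹ • w)) (r⁻¹ • w) :=
    (hφ.differentiable (by norm_num)).differentiableAt.hasFDerivAt
  have h3 := h2.comp_hasDerivAt r h1
  refine h3.congr_deriv ?_
  rw [hφ']
  show - (6 * msq (r⁻¹ • w) * ⟪r⁻¹ • w, (-(r ^ 2)⁻¹) • w⟫) = _
  rw [real_inner_smul_left, real_inner_smul_right, real_inner_self_eq_norm_sq, norm_smul,
    norm_inv, Real.norm_eq_abs, abs_of_pos hr]
  field_simp

/-- the derivative of the integral -/
theorem int_deriv {n m : ℕ} {u : E n → E m} {x : E n} {ρ r : ℝ} (hr : 0 < r) (hρ : r < ρ)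
    (hφ : ContDiff ℝ 1 (phi (n := n)))
    (hφ' : ∀ v w : E n, fderiv ℝ phi v w = - (6 * (max 0 (1 - ‖v‖ ^ 2)) ^ 2 * ⟪v, w⟫))
    (hφ0 : ∀ v : E n, 1 ≤ ‖v‖ → phi v = 0)
    (hc : ContinuousOn (en u) (ball x ρ)) :
    HasDerivAt (fun s : ℝ => ∫ y, phi (s⁻¹ • (y - x)) * en u y)
      (∫ y, (6 * msq (r⁻¹ • (y - x)) * ‖r⁻¹ • (y - x)‖ ^ 2 * r⁻¹) * en u y) r := by
  have hen : ∀ y, 0 ≤ en u y := fun y => nsq_nonneg _
  set r2 : ℝ := (r + ρ) / 2 with hr2
  set S : Set ℝ := Ioo (r / 2) r2 with hS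
  have hSn : S ∈ 𝓝 r := Ioo_mem_nhds (by linarith) (by linarith)
  have hr2ρ : r2 < ρ := by linarith
  set B : E n → ℝ := (closedBall x r2).indicator fun y => 6 * (r / 2)⁻¹ * en u y with hB
  have hBi : Integrable B := by
    rw [hB, integrable_indicator_iff isClosed_closedBall.measurableSet]
    refine ContinuousOn.integrableOn_compact (isCompact_closedBall x r2) ?_
    exact continuousOn_const.mul (hc.mono (closedBall_subset_ball hr2ρ))
  have hmsq0 : ∀ v : E n, 1 ≤ ‖v‖ → 6 * msq v * ‖v‖ ^ 2 = 0 := by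
    intro v hv
    rw [msq_zero hv]
    ring
  have hmc : Continuous fun v : E n => 6 * msq v * ‖v‖ ^ 2 := by
    have := msq_cont (n := n)
    fun_prop
  refine (hasDerivAt_integral_of_dominated_loc_of_deriv_le (bound := B)
    (F := fun s y => phi (s⁻¹ • (y - x)) * en u y)
    (F' := fun s y => (6 * msq (s⁻¹ • (y - x)) * ‖s⁻¹ • (y - x)‖ ^ 2 * s⁻¹) * en u y)
    (s := S) hSn ?_ ?_ ?_ ?_ hBi ?_).2
  · filter_upwards [hSn] with s hs
    have hs0 : 0 < s := lt_trans (by linarith) hs.1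
    exact (int_scale hφ.continuous hφ0 hs0 (hs.2.trans hr2ρ) hc).aestronglyMeasurable
  · exact int_scale hφ.continuous hφ0 hr hρ hc
  · have h1 := (int_scale hmc hmsq0 hr hρ hc).const_mul r⁻¹
    refine h1.aestronglyMeasurable.congr (Eventually.of_forall fun y => ?_)
    show r⁻¹ * (6 * msq (r⁻¹ • (y - x)) * ‖r⁻¹ • (y - x)‖ ^ 2 * en u y) =
      (6 * msq (r⁻¹ • (y - x)) * ‖r⁻¹ • (y - x)‖ ^ 2 * r⁻¹) * en u y
    ring
  · refine Eventually.of_forall fun y s hs => ?_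
    have hs0 : 0 < s := lt_trans (by linarith) hs.1
    set v : E n := s⁻¹ • (y - x) with hv
    show ‖(6 * msq v * ‖v‖ ^ 2 * s⁻¹) * en u y‖ ≤ B y
    by_cases h1 : 1 ≤ ‖v‖
    · rw [hmsq0 v h1]
      simp only [zero_mul, norm_zero]
      rw [hB]
      refine indicator_nonneg (fun z _ => ?_) y
      have := hen z
      positivity
    · push Not at h1
      have h2 : y ∈ closedBall x r2 := by
        rw [mem_closedBall, dist_eq_norm]
        have h3 : ‖y - x‖ = s * ‖v‖ := by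
          rw [hv, norm_smul, norm_inv, Real.norm_eq_abs, abs_of_pos hs0]
          field_simp
        rw [h3]
        have h4 : s * ‖v‖ ≤ s * 1 := mul_le_mul_of_nonneg_left h1.le hs0.le
        linarith [hs.2]
      rw [hB, indicator_of_mem h2, Real.norm_eq_abs, abs_of_nonneg]
      · refine mul_le_mul_of_nonneg_right ?_ (hen y)
        have h5 : s⁻¹ ≤ (r / 2)⁻¹ := inv_anti₀ (by positivity) hs.1.le
        have h6 : 6 * msq v * ‖v‖ ^ 2 ≤ 6 := by
          have h7 := msq_le_one v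
          have h8 := msq_nonneg v
          have h9 : ‖v‖ ^ 2 ≤ 1 := pow_le_one₀ (norm_nonneg _) h1.le
          have h10 : 0 ≤ ‖v‖ ^ 2 := by positivity
          nlinarith
        exact mul_le_mul h6 h5 (by positivity) (by norm_num)
      · have h8 := msq_nonneg v
        have h9 := hen y
        positivity
  · refine Eventually.of_forall fun y s hs => ?_
    have hs0 : 0 < s := lt_trans (by linarith) hs.1
    exact (phi_deriv hφ hφ' (y - x) hs0).mul_const _

/-- the sign of the derivative, from stationarity -/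
theorem sign {n m : ℕ} {L : ℝ} {u : E n → E m} {x : E n} {ρ r : ℝ} (hSTA : T_STA)
    (hM : HM n m L (ball x ρ) u) (hr : 0 < r) (hρ : r < ρ)
    (hφ : ContDiff ℝ 1 (phi (n := n)))
    (hφ' : ∀ v w : E n, fderiv ℝ phi v w = - (6 * (max 0 (1 - ‖v‖ ^ 2)) ^ 2 * ⟪v, w⟫))
    (hφ0 : ∀ v : E n, 1 ≤ ‖v‖ → phi v = 0)
    (hc : ContinuousOn (en u) (ball x ρ)) :
    0 ≤ (2 - (n : ℝ)) * (∫ y, phi (r⁻¹ • (y - x)) * en u y) +
      ∫ y, (6 * msq (r⁻¹ • (y - x)) * ‖r⁻¹ • (y - x)‖ ^ 2) * en u y := by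
  set X : E n → E n := fun y => phi (r⁻¹ • (y - x)) • (y - x) with hX
  have hlin : ContDiff ℝ 1 fun y : E n => r⁻¹ • (y - x) :=
    (contDiff_id.sub contDiff_const).const_smul r⁻¹
  have hX1 : ContDiff ℝ 1 X := (hφ.comp hlin).smul (contDiff_id.sub contDiff_const)
  have hs1 := supp_scale hφ0 x hr
  have hXs : tsupport X ⊆ closedBall x r :=
    (tsupport_smul_subset_left (fun y => phi (r⁻¹ • (y - x))) (fun y : E n => y - x)).trans hs1
  have hXc : HasCompactSupport X :=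
    (isCompact_closedBall x r).of_isClosed_subset (isClosed_tsupport _) hXs
  have h0 := hSTA n m L (ball x ρ) u isOpen_ball hM X hX1 hXc
    (hXs.trans (closedBall_subset_ball hρ))
  have hD : ∀ y : E n, ∀ i j, (fderiv ℝ X y (bv i)) j =
      phi (r⁻¹ • (y - x)) * (if i = j then 1 else 0) -
        6 * msq (r⁻¹ • (y - x)) * ((r⁻¹ • (y - x)) i * (r⁻¹ • (y - x)) j) := by
    intro y i j
    have hd : HasFDerivAt (fun y : E n => r⁻¹ • (y - x)) (r⁻¹ • ContinuousLinearMap.id ℝ (E n)) y :=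
      ((hasFDerivAt_id y).sub_const x).const_smul r⁻¹
    have hzd : HasFDerivAt phi (fderiv ℝ phi (r⁻¹ • (y - x))) (r⁻¹ • (y - x)) :=
      (hφ.differentiable (by norm_num)).differentiableAt.hasFDerivAt
    have hcd := hzd.comp y hd
    have hyd : HasFDerivAt (fun y : E n => y - x) (ContinuousLinearMap.id ℝ (E n)) y :=
      (hasFDerivAt_id y).sub_const x
    have hXd := (hcd.smul hyd).fderiv
    have e : fderiv ℝ X y (bv i) = phi (r⁻¹ • (y - x)) • (bv i : E n) +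
        (fderiv ℝ phi (r⁻¹ • (y - x)) (r⁻¹ • (bv i : E n))) • (y - x) := by
      have e1 : fderiv ℝ X y = _ := hXd
      rw [e1]
      rfl
    rw [e, hφ']
    show phi (r⁻¹ • (y - x)) * (bv i : E n) j +
      - (6 * msq (r⁻¹ • (y - x)) * ⟪r⁻¹ • (y - x), r⁻¹ • (bv i : E n)⟫) * (y - x) j = _
    rw [bv_apply, real_inner_smul_right, inner_bv]
    have e2 : (r⁻¹ • (y - x)) j = r⁻¹ * (y - x) j := rfl
    rw [e2]
    ring
  have hst : ∀ y, statF (fderiv ℝ u y) (fderiv ℝ X y) =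
      ((n : ℝ) - 2) * (phi (r⁻¹ • (y - x)) * en u y) -
        (6 * msq (r⁻¹ • (y - x)) * ‖r⁻¹ • (y - x)‖ ^ 2) * en u y +
        12 * (msq (r⁻¹ • (y - x)) * ‖fderiv ℝ u y (r⁻¹ • (y - x))‖ ^ 2) := by
    intro y
    rw [statF_eq (fderiv ℝ u y) (fderiv ℝ X y) (phi (r⁻¹ • (y - x)))
      (6 * msq (r⁻¹ • (y - x))) (r⁻¹ • (y - x)) (hD y)]
    unfold en
    ring
  have hmsq0 : ∀ v : E n, 1 ≤ ‖v‖ → 6 * msq v * ‖v‖ ^ 2 = 0 := by
    intro v hv
    rw [msq_zero hv]
    ring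
  have hmc : Continuous fun v : E n => 6 * msq v * ‖v‖ ^ 2 := by
    have := msq_cont (n := n)
    fun_prop
  have iA : Integrable fun y => phi (r⁻¹ • (y - x)) * en u y :=
    int_scale hφ.continuous hφ0 hr hρ hc
  have iB : Integrable fun y => (6 * msq (r⁻¹ • (y - x)) * ‖r⁻¹ • (y - x)‖ ^ 2) * en u y :=
    int_scale hmc hmsq0 hr hρ hc
  have iC : Integrable fun y => msq (r⁻¹ • (y - x)) * ‖fderiv ℝ u y (r⁻¹ • (y - x))‖ ^ 2 := by
    refine int_scale msq_cont (fun v hv => msq_zero hv) hr hρ ?_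
    have hu1 : ContinuousOn (fderiv ℝ u) (ball x ρ) :=
      (hM.smooth.fderiv_of_isOpen isOpen_ball (by simp) : ContDiffOn ℝ ∞ _ _).continuousOn
    exact ((hu1.clm_apply hlin.continuous.continuousOn).norm).pow 2
  have iAB : Integrable fun y => ((n : ℝ) - 2) * (phi (r⁻¹ • (y - x)) * en u y) -
      (6 * msq (r⁻¹ • (y - x)) * ‖r⁻¹ • (y - x)‖ ^ 2) * en u y := (iA.const_mul _).sub iB
  rw [integral_congr_ae (Eventually.of_forall hst), integral_add iAB (iC.const_mul 12),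
    integral_sub (iA.const_mul _) iB, integral_const_mul, integral_const_mul] at h0
  have h1 : 0 ≤ ∫ y, msq (r⁻¹ • (y - x)) * ‖fderiv ℝ u y (r⁻¹ • (y - x))‖ ^ 2 :=
    integral_nonneg fun y => mul_nonneg (msq_nonneg _) (by positivity)
  linarith

theorem pf_MON (hPHI : T_PHI) (hSTA : T_STA) : T_MON := by
  intro n m L u x ρ hn hM
  obtain ⟨hφ, -, hφ', -, -, -, hφ00, -⟩ := hPHI n
  have hφ0 : ∀ v : E n, 1 ≤ ‖v‖ → phi v = 0 := fun v hv => (hφ00 v hv).1
  have hc : ContinuousOn (en u) (ball x ρ) := by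
    have hu1 : ContDiffOn ℝ ∞ (fderiv ℝ u) (ball x ρ) :=
      hM.smooth.fderiv_of_isOpen isOpen_ball (by simp)
    unfold en nsq
    refine continuousOn_finsetSum _ fun i _ => ?_
    exact ((hu1.continuousOn.clm_apply continuousOn_const).norm).pow 2
  obtain ⟨k, hk⟩ := Nat.exists_eq_add_of_le hn
  set T : ℝ → ℝ := fun r => r ^ (-(k : ℤ)) * ∫ y, phi (r⁻¹ • (y - x)) * en u y with hT
  have hTe : ∀ r ∈ Ioo 0 ρ, theta u x r = T r := by
    intro r hr
    have hr0 : r ≠ 0 := hr.1.ne'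
    have e : r ^ 2 * (r ^ n)⁻¹ = r ^ (-(k : ℤ)) := by
      rw [hk, zpow_neg, zpow_natCast, pow_add]
      field_simp
    rw [theta_eq u x hr.1, e]
  have hTd : ∀ r ∈ Ioo 0 ρ, HasDerivAt T (r ^ (-(k : ℤ) - 1) *
      ((2 - (n : ℝ)) * (∫ y, phi (r⁻¹ • (y - x)) * en u y) +
        ∫ y, (6 * msq (r⁻¹ • (y - x)) * ‖r⁻¹ • (y - x)‖ ^ 2) * en u y)) r := by
    intro r hr
    have h1 := (hasDerivAt_zpow (-(k : ℤ)) r (Or.inl hr.1.ne')).mul
      (int_deriv hr.1 hr.2 hφ hφ' hφ0 hc)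
    refine h1.congr_deriv ?_
    have e1 : (∫ y, (6 * msq (r⁻¹ • (y - x)) * ‖r⁻¹ • (y - x)‖ ^ 2 * r⁻¹) * en u y) =
        r⁻¹ * ∫ y, (6 * msq (r⁻¹ • (y - x)) * ‖r⁻¹ • (y - x)‖ ^ 2) * en u y := by
      rw [← integral_const_mul]
      refine integral_congr_ae (Eventually.of_forall fun y => ?_)
      show (6 * msq (r⁻¹ • (y - x)) * ‖r⁻¹ • (y - x)‖ ^ 2 * r⁻¹) * en u y =
        r⁻¹ * ((6 * msq (r⁻¹ • (y - x)) * ‖r⁻¹ • (y - x)‖ ^ 2) * en u y)
      ring
    rw [e1, zpow_sub_one₀ hr.1.ne']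
    have e2 : (n : ℝ) = 2 + k := by
      rw [hk]
      push_cast
      ring
    rw [e2]
    push_cast
    ring
  have hmono : MonotoneOn T (Ioo 0 ρ) := by
    refine monotoneOn_of_deriv_nonneg (convex_Ioo 0 ρ)
      (fun r hr => (hTd r hr).continuousAt.continuousWithinAt) ?_ ?_
    · rw [interior_Ioo]
      exact fun r hr => (hTd r hr).differentiableAt.differentiableWithinAt
    · rw [interior_Ioo]
      intro r hr
      rw [(hTd r hr).deriv]
      have h2 := sign hSTA hM hr.1 hr.2 hφ hφ' hφ0 hc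
      have h3 : 0 < r ^ (-(k : ℤ) - 1) := zpow_pos hr.1 _
      positivity
  intro r hr s hs hrs
  rw [hTe r hr, hTe s hs]
  exact hmono hr hs hrs

end Pool.Agent.H27.SH
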