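import Pool.Agent.H87.SH.Targets

/-!
# Half of the logarithm for smooth harmonic maps: the set of points of small scale (row DIS)
-/

set_option autoImplicit false

namespace Pool.Agent.H27.SH

open MeasureTheory Metric Set Filter Topology Pool.Agent.H87.SN Pool.Agent.H87.SH
open scoped ContDiff RealInnerProductSpace ENNReal

theorem HM_mono {n m : ℕ} {L : ℝ} {U V : Set (E n)} {u : E n → E m} (h : HM n m L U u)
    (hV : V ⊆ U) : HM n m L V u :=
  ⟨h.smooth.mono hV, fun x hx v => h.orth x (hV hx) v, fun x hx => h.lapb x (hV hx)⟩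

theorem en_continuousOn {n m : ℕ} {L : ℝ} {U : Set (E n)} {u : E n → E m} (hU : IsOpen U)
    (h : HM n m L U u) : ContinuousOn (en u) U := by
  have hu1 : ContDiffOn ℝ ∞ (fderiv ℝ u) U := h.smooth.fderiv_of_isOpen hU (by simp)
  unfold en nsq
  refine continuousOn_finsetSum _ fun i _ => ?_
  exact ((hu1.continuousOn.clm_apply continuousOn_const).norm).pow 2

theorem en_nonneg {n m : ℕ} (u : E n → E m) (x : E n) : 0 ≤ en u x := by
  unfold en nsq
  exact Finset.sum_nonneg fun i _ => by positivity

theorem ofReal_integral_le {α : Type*} [MeasurableSpace α] {μ : Measure α} {f : α → ℝ}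
    (hf : ∀ x, 0 ≤ f x) : ENNReal.ofReal (∫ x, f x ∂μ) ≤ ∫⁻ x, ENNReal.ofReal (f x) ∂μ := by
  by_cases h : Integrable f μ
  · rw [ofReal_integral_eq_lintegral_ofReal h (Eventually.of_forall hf)]
  · rw [integral_undef h]
    simp

theorem pf_DIS (hPHI : T_PHI) (hSCH : T_SCH) : T_DIS := by
  classical
  intro n m L hn hL
  obtain ⟨c, hc, hS⟩ := hSCH n m L hn hL
  obtain ⟨hφ1, -, -, -, hφ01, -, hφ0, -⟩ := hPHI n
  set V : ℝ := (volume (ball (0 : E n) 1)).toReal with hV
  have hVr : ENNReal.ofReal V = volume (ball (0 : E n) 1) :=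
    ENNReal.ofReal_toReal measure_ball_lt_top.ne
  refine ⟨64 * V / c, by positivity, ?_⟩
  intro u R hM hRm hR ρ hρ hρ8
  set e : E n → ℝ≥0∞ := (ball (0 : E n) 2).indicator fun x => ENNReal.ofReal (en u x) with he
  have hem : Measurable e := by
    have h1 : ContinuousOn (fun x => ENNReal.ofReal (en u x)) (ball (0 : E n) 2) :=
      ENNReal.continuous_ofReal.comp_continuousOn (en_continuousOn isOpen_ball hM)
    have h2 := h1.measurable_piecewise (g := 0) continuousOn_const measurableSet_ball
    rwa [piecewise_eq_indicator] at h2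
  have hφm : Measurable fun v : E n => ENNReal.ofReal (phi v) :=
    hφ1.continuous.measurable.ennreal_ofReal
  set A : Set (E n) := {x : E n | x ∈ ball (0 : E n) 1 ∧ R x < ρ} with hA
  have hAm : MeasurableSet A := measurableSet_ball.inter (measurableSet_lt hRm measurable_const)
  set G : E n → E n → ℝ≥0∞ := fun x v =>
    ENNReal.ofReal (64 * ρ ^ 2) * (ENNReal.ofReal (phi v) * e (x + (8 * ρ) • v)) with hG
  have hGm : Measurable (Function.uncurry G) := by
    have h1 : Measurable fun p : E n × E n => p.1 + (8 * ρ) • p.2 :=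
      (continuous_fst.add (continuous_snd.const_smul (8 * ρ))).measurable
    exact ((hφm.comp measurable_snd).mul (hem.comp h1)).const_mul _
  have h1 : ∀ x ∈ A, ENNReal.ofReal c ≤ ∫⁻ v, G x v := by
    intro x hx
    obtain ⟨hx1, hx2⟩ := hx
    rw [mem_ball_zero_iff] at hx1
    have h2 : c ≤ theta u x (8 * ρ) := by
      by_contra hne
      push Not at hne
      obtain ⟨y, hy, hy2⟩ := hR x ρ hx2 hρ8
      have h3 := hS u x ρ (2 - ‖x‖) hρ (by linarith) (HM_mono hM ?_) hne y hy
      · linarith
      · intro z hz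
        rw [mem_ball, dist_eq_norm] at hz
        rw [mem_ball_zero_iff]
        have h4 : ‖z‖ ≤ ‖z - x‖ + ‖x‖ := by
          have := norm_add_le (z - x) x
          rwa [sub_add_cancel] at this
        linarith
    refine (ENNReal.ofReal_le_ofReal h2).trans ((ofReal_integral_le fun v => ?_).trans ?_)
    · have h5 := en_nonneg u (x + (8 * ρ) • v)
      have h6 := (hφ01 v).1
      positivity
    · refine lintegral_mono fun v => ?_
      by_cases hv : 1 ≤ ‖v‖
      · rw [(hφ0 v hv).1]
        simp
      · push Not at hv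
        have h7 : x + (8 * ρ) • v ∈ ball (0 : E n) 2 := by
          rw [mem_ball_zero_iff]
          refine (norm_add_le _ _).trans_lt ?_
          rw [norm_smul, Real.norm_eq_abs, abs_of_pos (by positivity)]
          have h8 : 8 * ρ * ‖v‖ ≤ 1 * ‖v‖ :=
            mul_le_mul_of_nonneg_right (by linarith) (norm_nonneg _)
          linarith
        have h9 : e (x + (8 * ρ) • v) = ENNReal.ofReal (en u (x + (8 * ρ) • v)) :=
          indicator_of_mem h7 _
        show ENNReal.ofReal ((8 * ρ) ^ 2 * (en u (x + (8 * ρ) • v) * phi v)) ≤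
          ENNReal.ofReal (64 * ρ ^ 2) * (ENNReal.ofReal (phi v) * e (x + (8 * ρ) • v))
        rw [h9, ← ENNReal.ofReal_mul (hφ01 v).1, ← ENNReal.ofReal_mul (by positivity)]
        refine ENNReal.ofReal_le_ofReal (le_of_eq ?_)
        ring
  have h2 : ENNReal.ofReal c * volume A ≤ ENNReal.ofReal (64 * ρ ^ 2) *
      (ENNReal.ofReal V * ∫⁻ x in ball (0 : E n) 2, ENNReal.ofReal (en u x)) := by
    calc ENNReal.ofReal c * volume A = ∫⁻ _x in A, ENNReal.ofReal c := (setLIntegral_const _ _).symm
      _ ≤ ∫⁻ x in A, ∫⁻ v, G x v := setLIntegral_mono' hAm h1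
      _ ≤ ∫⁻ x, ∫⁻ v, G x v := setLIntegral_le_lintegral _ _
      _ = ∫⁻ v, ∫⁻ x, G x v := lintegral_lintegral_swap hGm.aemeasurable
      _ = ∫⁻ v, ENNReal.ofReal (64 * ρ ^ 2) * (ENNReal.ofReal (phi v) * ∫⁻ x, e x) := by
          refine lintegral_congr fun v => ?_
          rw [lintegral_const_mul' _ _ ENNReal.ofReal_ne_top,
            lintegral_const_mul' _ _ ENNReal.ofReal_ne_top,
            lintegral_add_right_eq_self e ((8 * ρ) • v)]
      _ = ENNReal.ofReal (64 * ρ ^ 2) * ((∫⁻ v : E n, ENNReal.ofReal (phi v)) * ∫⁻ x, e x) := by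
          rw [lintegral_const_mul' _ _ ENNReal.ofReal_ne_top, lintegral_mul_const _ hφm]
      _ ≤ _ := by
          refine mul_le_mul' le_rfl (mul_le_mul' ?_ (le_of_eq ?_))
          · rw [hVr, ← setLIntegral_one, ← lintegral_indicator measurableSet_ball]
            refine lintegral_mono fun v => ?_
            by_cases hv : 1 ≤ ‖v‖
            · rw [(hφ0 v hv).1]
              simp
            · push Not at hv
              rw [indicator_of_mem (mem_ball_zero_iff.2 hv)]
              exact ENNReal.ofReal_le_one.2 (hφ01 v).2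
          · exact lintegral_indicator measurableSet_ball _
  calc volume A = ENNReal.ofReal (1 / c) * (ENNReal.ofReal c * volume A) := by
        rw [← mul_assoc, ← ENNReal.ofReal_mul (by positivity)]
        have h3 : 1 / c * c = 1 := by field_simp
        rw [h3]
        simp
    _ ≤ ENNReal.ofReal (1 / c) * (ENNReal.ofReal (64 * ρ ^ 2) *
      (ENNReal.ofReal V * ∫⁻ x in ball (0 : E n) 2, ENNReal.ofReal (en u x))) :=
        mul_le_mul' le_rfl h2
    _ = _ := by
        rw [← mul_assoc, ← mul_assoc, ← ENNReal.ofReal_mul (by positivity),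
          ← ENNReal.ofReal_mul (by positivity)]
        congr 2
        ring

end Pool.Agent.H27.SH
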