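import Pool.Agent.H87.SH.Targets

/-!
# Half of the logarithm for smooth harmonic maps: dyadic summation (row DYA)
-/

set_option autoImplicit false

namespace Pool.Agent.H27.SH

open MeasureTheory Metric Set Filter Topology Pool.Agent.H87.SN Pool.Agent.H87.SH
open scoped ContDiff RealInnerProductSpace ENNReal

/-- the dyadic shell -/
def shell {X : Type} (R : X → ℝ) (k : ℕ) : Set X :=
  {x | (1 / 2 : ℝ) ^ (k + 4) ≤ R x ∧ R x < (1 / 2 : ℝ) ^ (k + 3)}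

theorem cover {X : Type} (R : X → ℝ) (hR : ∀ x, 0 < R x) :
    {x | R x < 1 / 8} ⊆ ⋃ k, shell R k := by
  classical
  intro x hx
  have hx' : R x < 1 / 8 := hx
  have hex : ∃ k : ℕ, (1 / 2 : ℝ) ^ (k + 4) ≤ R x := by
    obtain ⟨n, hn⟩ := exists_pow_lt_of_lt_one (hR x) (by norm_num : (1 / 2 : ℝ) < 1)
    refine ⟨n, le_trans ?_ hn.le⟩
    exact pow_le_pow_of_le_one (by norm_num) (by norm_num) (by omega)
  refine mem_iUnion.2 ⟨Nat.find hex, Nat.find_spec hex, ?_⟩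
  rcases Nat.eq_zero_or_pos (Nat.find hex) with h0 | h0
  · rw [h0]
    norm_num
    linarith
  · have h1 := Nat.find_min hex (m := Nat.find hex - 1) (by omega)
    push Not at h1
    have e : Nat.find hex - 1 + 4 = Nat.find hex + 3 := by omega
    rw [e] at h1
    exact h1

theorem shell_bound {X : Type} [MeasurableSpace X] (μ : Measure X) (R : X → ℝ)
    (hRm : Measurable R) (hR : ∀ x, 0 < R x) (a : ℝ)
    (hμ : ∀ ρ : ℝ, 0 < ρ → ρ ≤ 1 / 8 → μ {x | R x < ρ} ≤ ENNReal.ofReal (a * ρ ^ 2))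
    (f : X → ℝ) (c : ℕ → ℝ) (hc : ∀ k, 0 ≤ c k) (hf : ∀ k, ∀ x ∈ shell R k, f x ≤ c k) :
    ∫⁻ x in {x | R x < 1 / 8}, ENNReal.ofReal (f x) ∂μ ≤
      ∑' k, ENNReal.ofReal (c k * (a * ((1 / 2 : ℝ) ^ (k + 3)) ^ 2)) := by
  have hm : ∀ k, MeasurableSet (shell R k) := fun k =>
    (measurableSet_le measurable_const hRm).inter (measurableSet_lt hRm measurable_const)
  calc ∫⁻ x in {x | R x < 1 / 8}, ENNReal.ofReal (f x) ∂μ
      ≤ ∫⁻ x in ⋃ k, shell R k, ENNReal.ofReal (f x) ∂μ := lintegral_mono_set (cover R hR)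
    _ ≤ ∑' k, ∫⁻ x in shell R k, ENNReal.ofReal (f x) ∂μ := lintegral_iUnion_le _ _
    _ ≤ _ := ENNReal.tsum_le_tsum fun k => ?_
  calc ∫⁻ x in shell R k, ENNReal.ofReal (f x) ∂μ
      ≤ ∫⁻ _x in shell R k, ENNReal.ofReal (c k) ∂μ :=
        setLIntegral_mono' (hm k) fun x hx => ENNReal.ofReal_le_ofReal (hf k x hx)
    _ = ENNReal.ofReal (c k) * μ (shell R k) := setLIntegral_const _ _
    _ ≤ ENNReal.ofReal (c k) * ENNReal.ofReal (a * ((1 / 2 : ℝ) ^ (k + 3)) ^ 2) := by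
        refine mul_le_mul' le_rfl ?_
        refine le_trans (measure_mono fun x hx => hx.2) (hμ ((1 / 2 : ℝ) ^ (k + 3)) (by positivity) ?_)
        calc (1 / 2 : ℝ) ^ (k + 3) ≤ (1 / 2 : ℝ) ^ 3 :=
              pow_le_pow_of_le_one (by norm_num) (by norm_num) (by omega)
          _ = 1 / 8 := by norm_num
    _ = _ := (ENNReal.ofReal_mul (hc k)).symm

theorem inv_lt {t : ℝ} (k : ℕ) (h : t < (1 / 2 : ℝ) ^ k) (ht : 0 < t) : (2 : ℝ) ^ k ≤ 1 / t := by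
  rw [le_div_iff₀ ht]
  have h1 : (2 : ℝ) ^ k * (1 / 2 : ℝ) ^ k = 1 := by
    rw [← mul_pow]
    norm_num
  have h2 : (2 : ℝ) ^ k * t ≤ (2 : ℝ) ^ k * (1 / 2 : ℝ) ^ k :=
    mul_le_mul_of_nonneg_left h.le (by positivity)
  linarith

theorem inv_le {t : ℝ} (k : ℕ) (h : (1 / 2 : ℝ) ^ k ≤ t) (ht : 0 < t) : 1 / t ≤ (2 : ℝ) ^ k := by
  rw [div_le_iff₀ ht]
  have h1 : (2 : ℝ) ^ k * (1 / 2 : ℝ) ^ k = 1 := by
    rw [← mul_pow]
    norm_num
  have h2 : (2 : ℝ) ^ k * (1 / 2 : ℝ) ^ k ≤ (2 : ℝ) ^ k * t :=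
    mul_le_mul_of_nonneg_left h (by positivity)
  linarith

theorem sum_q (q : ℝ → ℝ) (hq : AntitoneOn q (Ici 0)) (hq0 : ∀ s, 0 ≤ q s ∧ q s ≤ 1) :
    ∑' k : ℕ, ENNReal.ofReal (q (2 ^ (k + 3))) ≤
      2 * ∫⁻ s in Ioi (1 : ℝ), ENNReal.ofReal (q s / s) := by
  have h1 : ∀ k : ℕ, ENNReal.ofReal (q (2 ^ (k + 3))) ≤
      2 * ∫⁻ s in Ioc ((2 : ℝ) ^ (k + 2)) (2 ^ (k + 3)), ENNReal.ofReal (q s / s) := by
    intro k
    have hk : (2 : ℝ) ^ (k + 3) = 2 * 2 ^ (k + 2) := by ring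
    have hp : (0 : ℝ) < 2 ^ (k + 2) := by positivity
    have h2 : ENNReal.ofReal (q (2 ^ (k + 3)) / 2 ^ (k + 3)) *
        volume (Ioc ((2 : ℝ) ^ (k + 2)) (2 ^ (k + 3))) ≤
        ∫⁻ s in Ioc ((2 : ℝ) ^ (k + 2)) (2 ^ (k + 3)), ENNReal.ofReal (q s / s) := by
      rw [← setLIntegral_const]
      refine setLIntegral_mono' measurableSet_Ioc fun s hs => ENNReal.ofReal_le_ofReal ?_
      have hs0 : 0 < s := hp.trans hs.1
      have h3 : q (2 ^ (k + 3)) ≤ q s :=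
        hq (mem_Ici.2 hs0.le) (mem_Ici.2 (by positivity)) hs.2
      exact div_le_div₀ (hq0 s).1 h3 hs0 hs.2
    have h4 : ENNReal.ofReal (q (2 ^ (k + 3)) / 2 ^ (k + 3)) *
        volume (Ioc ((2 : ℝ) ^ (k + 2)) (2 ^ (k + 3))) = ENNReal.ofReal (q (2 ^ (k + 3)) / 2) := by
      rw [Real.volume_Ioc, ← ENNReal.ofReal_mul (div_nonneg (hq0 _).1 (by positivity))]
      congr 1
      rw [hk]
      field_simp
      ring
    rw [h4] at h2
    calc ENNReal.ofReal (q (2 ^ (k + 3))) = ENNReal.ofReal (2 * (q (2 ^ (k + 3)) / 2)) := by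
          congr 1
          ring
      _ = 2 * ENNReal.ofReal (q (2 ^ (k + 3)) / 2) := by
          rw [ENNReal.ofReal_mul (by norm_num)]
          simp
      _ ≤ _ := mul_le_mul' le_rfl h2
  calc ∑' k : ℕ, ENNReal.ofReal (q (2 ^ (k + 3)))
      ≤ ∑' k : ℕ, 2 * ∫⁻ s in Ioc ((2 : ℝ) ^ (k + 2)) (2 ^ (k + 3)), ENNReal.ofReal (q s / s) :=
        ENNReal.tsum_le_tsum h1
    _ = 2 * ∑' k : ℕ, ∫⁻ s in Ioc ((2 : ℝ) ^ (k + 2)) (2 ^ (k + 3)), ENNReal.ofReal (q s / s) :=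
        ENNReal.tsum_mul_left
    _ = 2 * ∫⁻ s in ⋃ k : ℕ, Ioc ((2 : ℝ) ^ (k + 2)) (2 ^ (k + 3)), ENNReal.ofReal (q s / s) := by
        rw [lintegral_iUnion (fun k => measurableSet_Ioc)]
        have hmono : Monotone fun k : ℕ => (2 : ℝ) ^ (k + 2) :=
          fun i j hij => pow_le_pow_right₀ (by norm_num) (by omega)
        exact hmono.pairwise_disjoint_on_Ioc_succ
    _ ≤ _ := by
        refine mul_le_mul' le_rfl (lintegral_mono_set ?_)
        refine iUnion_subset fun k s hs => ?_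
        have : (1 : ℝ) ≤ 2 ^ (k + 2) := one_le_pow₀ (by norm_num)
        exact lt_of_le_of_lt this hs.1

theorem pf_DYA : T_DYA := by
  refine ⟨8, by norm_num, ?_⟩
  intro X _ μ R a I q ha hI hRm hR hμ hq hq0 hint
  constructor
  · refine (shell_bound μ R hRm hR a hμ (fun x => q (1 / R x) / R x ^ 2)
      (fun k => q (2 ^ (k + 3)) * (2 ^ (k + 4)) ^ 2) (fun k => ?_) (fun k x hx => ?_)).trans ?_
    · exact mul_nonneg (hq0 _).1 (by positivity)
    · have h1 := inv_lt (k + 3) hx.2 (hR x)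
      have h2 := inv_le (k + 4) hx.1 (hR x)
      have h3 : q (1 / R x) ≤ q (2 ^ (k + 3)) :=
        hq (mem_Ici.2 (by positivity)) (mem_Ici.2 (by have := hR x; positivity)) h1
      have h4 : (1 / R x) ^ 2 ≤ (2 ^ (k + 4)) ^ 2 :=
        pow_le_pow_left₀ (by have := hR x; positivity) h2 2
      have e : q (1 / R x) / R x ^ 2 = q (1 / R x) * (1 / R x) ^ 2 := by
        rw [one_div_pow, mul_one_div]
      show q (1 / R x) / R x ^ 2 ≤ q (2 ^ (k + 3)) * (2 ^ (k + 4)) ^ 2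
      rw [e]
      exact mul_le_mul h3 h4 (by positivity) (hq0 _).1
    · have e : ∀ k : ℕ, ENNReal.ofReal (q (2 ^ (k + 3)) * (2 ^ (k + 4)) ^ 2 *
          (a * ((1 / 2 : ℝ) ^ (k + 3)) ^ 2)) =
          ENNReal.ofReal (4 * a) * ENNReal.ofReal (q (2 ^ (k + 3))) := by
        intro k
        rw [← ENNReal.ofReal_mul (by positivity)]
        congr 1
        have h5 : ((2 : ℝ) ^ (k + 3)) * (1 / 2 : ℝ) ^ (k + 3) = 1 := by
          rw [← mul_pow]
          norm_num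
        have h6 : (2 : ℝ) ^ (k + 4) = 2 * 2 ^ (k + 3) := by ring
        rw [h6]
        calc q (2 ^ (k + 3)) * (2 * 2 ^ (k + 3)) ^ 2 * (a * ((1 / 2 : ℝ) ^ (k + 3)) ^ 2)
            = 4 * a * q (2 ^ (k + 3)) * (2 ^ (k + 3) * (1 / 2 : ℝ) ^ (k + 3)) ^ 2 := by ring
          _ = _ := by rw [h5]; ring
      calc ∑' k : ℕ, ENNReal.ofReal (q (2 ^ (k + 3)) * (2 ^ (k + 4)) ^ 2 *
          (a * ((1 / 2 : ℝ) ^ (k + 3)) ^ 2))
          = ∑' k : ℕ, ENNReal.ofReal (4 * a) * ENNReal.ofReal (q (2 ^ (k + 3))) :=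
            tsum_congr e
        _ = ENNReal.ofReal (4 * a) * ∑' k : ℕ, ENNReal.ofReal (q (2 ^ (k + 3))) :=
            ENNReal.tsum_mul_left
        _ ≤ ENNReal.ofReal (4 * a) * (2 * ENNReal.ofReal I) :=
            mul_le_mul' le_rfl ((sum_q q hq hq0).trans (mul_le_mul' le_rfl hint))
        _ = ENNReal.ofReal (8 * a * I) := by
            have h7 : (2 : ℝ≥0∞) = ENNReal.ofReal 2 := by simp
            rw [h7, ← ENNReal.ofReal_mul (by norm_num), ← ENNReal.ofReal_mul (by positivity)]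
            congr 1
            ring
  · refine (shell_bound μ R hRm hR a hμ (fun x => 1 / R x)
      (fun k => 2 ^ (k + 4)) (fun k => by positivity) (fun k x hx => ?_)).trans ?_
    · exact inv_le (k + 4) hx.1 (hR x)
    · have e : ∀ k : ℕ, ENNReal.ofReal (2 ^ (k + 4) * (a * ((1 / 2 : ℝ) ^ (k + 3)) ^ 2)) =
          ENNReal.ofReal (a / 4 * (1 / 2 : ℝ) ^ k) := by
        intro k
        congr 1
        have h5 : ((2 : ℝ) ^ (k + 3)) * (1 / 2 : ℝ) ^ (k + 3) = 1 := by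
          rw [← mul_pow]
          norm_num
        calc (2 : ℝ) ^ (k + 4) * (a * ((1 / 2 : ℝ) ^ (k + 3)) ^ 2)
            = 2 * a * ((2 : ℝ) ^ (k + 3) * (1 / 2 : ℝ) ^ (k + 3)) * (1 / 2 : ℝ) ^ (k + 3) := by ring
          _ = a / 4 * (1 / 2 : ℝ) ^ k := by rw [h5]; ring
      rw [tsum_congr e]
      have hs : Summable fun k : ℕ => a / 4 * (1 / 2 : ℝ) ^ k :=
        (summable_geometric_of_lt_one (by norm_num) (by norm_num)).mul_left _
      rw [← ENNReal.ofReal_tsum_of_nonneg (fun k => by positivity) hs, tsum_mul_left,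
        tsum_geometric_of_lt_one (by norm_num) (by norm_num)]
      refine ENNReal.ofReal_le_ofReal ?_
      norm_num
      linarith

end Pool.Agent.H27.SH
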