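import Pool.Agent.H87.SH.Targets
import Pool.Agent.H39.SN.HES

/-!
# Half of the logarithm for smooth harmonic maps: local estimate of the Hessian (row LHE)
-/

set_option autoImplicit false

namespace Pool.Agent.H27.SH

open MeasureTheory Metric Set Filter Topology Pool.Agent.H87.SN Pool.Agent.H87.SH
open scoped ContDiff RealInnerProductSpace ENNReal

open Pool.Agent.H39.SN (vec norm_vec_sq apply_vec vec_smul nsq_nonneg cont_mul int_mul)

/-- scaled cutoff -/
theorem cutoff (hCUT : T_CUT) (n : ℕ) : ∃ L : ℝ, 0 ≤ L ∧ ∀ (x : E n) (r : ℝ), 0 < r →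
    ∃ ζ : E n → ℝ, ContDiff ℝ ∞ ζ ∧ (∀ y, 0 ≤ ζ y ∧ ζ y ≤ 1) ∧
      (∀ y ∈ ball x (r / 2), ζ y = 1) ∧ tsupport ζ ⊆ ball x r ∧ HasCompactSupport ζ ∧
      ∀ y, gsq ζ y ≤ L ^ 2 / r ^ 2 := by
  obtain ⟨z, L, hz, hz01, -, hz1, hz0, hL, hgz⟩ := hCUT n (1 / 2) (3 / 4) (by norm_num) (by norm_num)
  refine ⟨L, hL, fun x r hr => ⟨fun y => z (r⁻¹ • (y - x)), ?_, ?_, ?_, ?_, ?_, ?_⟩⟩
  · have h1 : ContDiff ℝ ∞ fun y : E n => r⁻¹ • (y - x) :=
      (contDiff_id.sub contDiff_const).const_smul r⁻¹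
    exact hz.comp h1
  · exact fun y => hz01 _
  · intro y hy
    apply hz1
    rw [norm_smul, norm_inv, Real.norm_eq_abs, abs_of_pos hr]
    rw [mem_ball, dist_eq_norm] at hy
    rw [inv_mul_le_iff₀ hr]
    linarith
  all_goals
    have hsub : tsupport (fun y => z (r⁻¹ • (y - x))) ⊆ closedBall x (3 / 4 * r) := by
      refine closure_minimal ?_ isClosed_closedBall
      intro y hy
      by_contra hne
      apply hy
      apply hz0
      rw [norm_smul, norm_inv, Real.norm_eq_abs, abs_of_pos hr]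
      rw [mem_closedBall, dist_eq_norm] at hne
      push Not at hne
      rw [le_inv_mul_iff₀ hr]
      linarith
  · refine hsub.trans fun y hy => ?_
    rw [mem_closedBall] at hy
    rw [mem_ball]
    linarith
  · exact (isCompact_closedBall x (3 / 4 * r)).of_isClosed_subset (isClosed_tsupport _) hsub
  · intro y
    have hd : HasFDerivAt (fun y : E n => r⁻¹ • (y - x)) (r⁻¹ • ContinuousLinearMap.id ℝ (E n)) y :=
      ((hasFDerivAt_id y).sub_const x).const_smul r⁻¹
    have hzd : HasFDerivAt z (fderiv ℝ z (r⁻¹ • (y - x))) (r⁻¹ • (y - x)) :=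
      (hz.differentiable (by simp)).differentiableAt.hasFDerivAt
    have hc := (hzd.comp y hd).fderiv
    have e : gsq (fun y => z (r⁻¹ • (y - x))) y = r⁻¹ ^ 2 * gsq z (r⁻¹ • (y - x)) := by
      unfold gsq nsq
      have e0 : fderiv ℝ (fun y => z (r⁻¹ • (y - x))) y =
        (fderiv ℝ z (r⁻¹ • (y - x))).comp (r⁻¹ • ContinuousLinearMap.id ℝ (E n)) := hc
      rw [e0, Finset.mul_sum]
      refine Finset.sum_congr rfl fun i _ => ?_
      simp only [ContinuousLinearMap.comp_apply, _root_.smul_apply,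
        ContinuousLinearMap.id_apply, map_smul, norm_smul, mul_pow, Real.norm_eq_abs, sq_abs]
    rw [e, div_eq_inv_mul, inv_pow]
    exact mul_le_mul_of_nonneg_left (hgz _) (by positivity)

/-- the pointwise estimate of the mixed term -/
theorem young2 {z c n h : ℝ} (hn : 0 ≤ n) (hh : 0 ≤ h) :
    2 * (2 * |z| * c) * Real.sqrt n * Real.sqrt h ≤ z ^ 2 * h + 4 * c ^ 2 * n := by
  obtain ⟨a, ha0, ha⟩ : ∃ a : ℝ, 0 ≤ a ∧ a ^ 2 = n := ⟨Real.sqrt n, Real.sqrt_nonneg _,
    Real.sq_sqrt hn⟩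
  obtain ⟨b, hb0, hb⟩ : ∃ b : ℝ, 0 ≤ b ∧ b ^ 2 = h := ⟨Real.sqrt h, Real.sqrt_nonneg _,
    Real.sq_sqrt hh⟩
  have ea : Real.sqrt n = a := by rw [← ha, Real.sqrt_sq ha0]
  have eb : Real.sqrt h = b := by rw [← hb, Real.sqrt_sq hb0]
  rw [ea, eb, ← ha, ← hb, ← sq_abs z]
  nlinarith [sq_nonneg (|z| * b - 2 * c * a)]

theorem pf_LHE (hCUT : T_CUT) (hGRN : T_GRN) (hBO1 : T_BO1) : T_LHE := by
  intro n m L hL
  obtain ⟨L1, hL1, hcut⟩ := cutoff hCUT n
  refine ⟨2 * L ^ 2 + 4 * L1 ^ 2, by positivity, ?_⟩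
  intro u x r hr hM hsm
  obtain ⟨ζ, hζ, hζ01, hζ1, hζs, hζc, hgζ⟩ := hcut x r hr
  set U : Set (E n) := ball x r with hUdef
  have hU : IsOpen U := isOpen_ball
  obtain ⟨hu, hO, hlap⟩ := hM
  obtain ⟨hF, hF2⟩ := hBO1 n m U u hU hu hO
  set F : E n → ℝ := fun y => nsq (fderiv ℝ u y) with hFdef
  have hFen : ∀ y, en u y = F y := fun y => rfl
  set P : E n → ℝ := fun y => ζ y ^ 2 with hPdef
  have hζ0 : ∀ y, y ∉ U → ζ =ᶠ[𝓝 y] fun _ => 0 := fun y hy =>
    notMem_tsupport_iff_eventuallyEq.1 fun h => hy (hζs h)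
  have hζz : ∀ y, y ∉ U → ζ y = 0 := fun y hy => (hζ0 y hy).self_of_nhds
  have hζ' : ContDiff ℝ 1 ζ := hζ.of_le (by exact WithTop.coe_le_coe.2 le_top)
  -- continuity on U
  have hu1 : ContDiffOn ℝ ∞ (fderiv ℝ u) U := hu.fderiv_of_isOpen hU (by simp)
  have hu2 : ContDiffOn ℝ ∞ (fderiv ℝ (fderiv ℝ u)) U := hu1.fderiv_of_isOpen hU (by simp)
  have cF : ContinuousOn F U := hF.continuousOn
  have hF1 : ContDiffOn ℝ ∞ (fderiv ℝ F) U := hF.fderiv_of_isOpen hU (by simp)
  have hF3 : ContDiffOn ℝ ∞ (fderiv ℝ (fderiv ℝ F)) U := hF1.fderiv_of_isOpen hU (by simp)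
  have clF : ContinuousOn (lap F) U := by
    unfold lap
    refine continuousOn_finsetSum _ fun i _ => ?_
    exact (hF3.continuousOn.clm_apply continuousOn_const).clm_apply continuousOn_const
  have ch : ContinuousOn (hsq u) U := by
    unfold hsq
    refine continuousOn_finsetSum _ fun i _ => continuousOn_finsetSum _ fun j _ => ?_
    exact (((hu2.continuousOn.clm_apply continuousOn_const).clm_apply
      continuousOn_const).norm).pow 2
  have hP1 : ContDiff ℝ 1 P := hζ'.pow 2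
  have hPc : HasCompactSupport P := by
    have e : P = fun y => ζ y * ζ y := by funext y; rw [hPdef]; ring
    rw [e]
    exact hζc.mul_right
  have hPs : tsupport P ⊆ tsupport ζ := by
    have e : P = fun y => ζ y * ζ y := by funext y; rw [hPdef]; ring
    rw [e]
    exact tsupport_mul_subset_left
  have hg : ∫ y, P y * lap F y =
      - ∫ y, ∑ i : Fin n, fderiv ℝ P y (bv i) * fderiv ℝ F y (bv i) :=
    hGRN n U P F hU hP1 hPc (hPs.trans hζs) (hF.of_le (by exact WithTop.coe_le_coe.2 le_top))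
  -- integrability
  have iA : Integrable fun y => P y * hsq u y :=
    int_mul hU hP1.continuous hPc (hPs.trans hζs) ch
  have iG1 : Integrable fun y => P y * lap F y :=
    int_mul hU hP1.continuous hPc (hPs.trans hζs) clF
  have hDP : ∀ i : Fin n, tsupport (fun y => fderiv ℝ P y (bv i)) ⊆ tsupport P := by
    intro i
    refine Subset.trans ?_ (tsupport_fderiv_subset (𝕜 := ℝ) (f := P))
    refine closure_mono ?_
    intro y hy
    rw [Function.mem_support] at hy ⊢
    intro h0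
    apply hy
    rw [h0]
    rfl
  have iG2 : Integrable fun y =>
      ∑ i : Fin n, fderiv ℝ P y (bv i) * fderiv ℝ F y (bv i) := by
    refine integrable_finsetSum _ fun i _ => ?_
    refine int_mul hU ?_ ?_ ((hDP i).trans (hPs.trans hζs)) ?_
    · exact (hP1.continuous_fderiv (by norm_num)).clm_apply continuous_const
    · exact hPc.of_isClosed_subset (isClosed_tsupport _) (hDP i)
    · exact hF1.continuousOn.clm_apply continuousOn_const
  have cgζ : Continuous (gsq ζ) := by
    unfold gsq nsq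
    refine continuous_finsetSum _ fun i _ => ?_
    exact (((hζ'.continuous_fderiv (by norm_num)).clm_apply continuous_const).norm).pow 2
  have hDζ0 : ∀ y, ζ =ᶠ[𝓝 y] (fun _ => 0) → fderiv ℝ ζ y = 0 := by
    intro y hy
    rw [hy.fderiv_eq]
    exact fderiv_const_apply _
  have hgζs : tsupport (gsq ζ) ⊆ tsupport ζ := by
    refine closure_minimal ?_ (isClosed_tsupport _)
    intro y hy
    by_contra hne
    apply hy
    have h1 := hDζ0 y (notMem_tsupport_iff_eventuallyEq.1 hne)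
    unfold gsq
    rw [h1]
    unfold nsq
    simp
  set S : E n → ℝ := fun y => 2 * L ^ 2 / r ^ 2 * (P y * F y) + 4 * (gsq ζ y * F y) with hSdef
  have iB : Integrable S :=
    ((int_mul hU hP1.continuous hPc (hPs.trans hζs) cF).const_mul _).add
      ((int_mul hU cgζ (hζc.of_isClosed_subset (isClosed_tsupport _) hgζs) (hgζs.trans hζs)
        cF).const_mul _)
  have hn0 : ∀ y, 0 ≤ F y := fun y => nsq_nonneg _
  have hh0 : ∀ y, 0 ≤ hsq u y := fun y =>
    Finset.sum_nonneg fun i _ => Finset.sum_nonneg fun j _ => by positivity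
  have hgζ0 : ∀ y, 0 ≤ gsq ζ y := fun y => nsq_nonneg _
  -- the pointwise inequality
  have key : ∀ y, P y * hsq u y ≤
      (P y * lap F y + ∑ i : Fin n, fderiv ℝ P y (bv i) * fderiv ℝ F y (bv i)) + S y := by
    intro y
    by_cases hy : y ∈ U
    · obtain ⟨hl, hb⟩ := hF2 y hy
      have hζ1 : DifferentiableAt ℝ ζ y := hζ'.contDiffAt.differentiableAt (by norm_num)
      have hdP : fderiv ℝ P y = (2 * ζ y) • fderiv ℝ ζ y := by
        have h1 := hζ1.hasFDerivAt.pow 2
        refine HasFDerivAt.fderiv (h1.congr_fderiv ?_)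
        ext v
        simp
      have hX : ‖vec (fderiv ℝ P y)‖ = 2 * |ζ y| * ‖vec (fderiv ℝ ζ y)‖ := by
        rw [hdP, vec_smul, norm_smul, Real.norm_eq_abs, abs_mul, abs_two]
      have hs : |∑ i : Fin n, fderiv ℝ P y (bv i) * fderiv ℝ F y (bv i)| ≤
          2 * ‖vec (fderiv ℝ P y)‖ * Real.sqrt (F y) * Real.sqrt (hsq u y) := by
        rw [← apply_vec]
        exact hb _
      have hyo := young2 (z := ζ y) (c := ‖vec (fderiv ℝ ζ y)‖) (hn0 y) (hh0 y)
      rw [hX] at hs
      rw [norm_vec_sq] at hyo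
      have h9 := (abs_le.1 (hs.trans hyo)).1
      have h10 : P y * lap F y = 2 * (P y * hsq u y) - 2 * (P y * ‖lap u y‖ ^ 2) := by
        have h11 : lap F y = 2 * (hsq u y - ‖lap u y‖ ^ 2) := hl
        rw [h11]
        ring
      have hP0 : 0 ≤ P y := by rw [hPdef]; positivity
      have h12 : ‖lap u y‖ ^ 2 ≤ L ^ 2 / r ^ 2 * F y := by
        have h13 : ‖lap u y‖ ≤ L * F y := hlap y hy
        have h14 : r ^ 2 * F y ≤ 1 := hsm y hy
        have h15 : F y * F y ≤ 1 / r ^ 2 * F y := by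
          refine mul_le_mul_of_nonneg_right ?_ (hn0 y)
          rw [le_div_iff₀ (by positivity)]
          linarith
        calc ‖lap u y‖ ^ 2 ≤ (L * F y) ^ 2 := pow_le_pow_left₀ (norm_nonneg _) h13 2
          _ = L ^ 2 * (F y * F y) := by ring
          _ ≤ L ^ 2 * (1 / r ^ 2 * F y) := mul_le_mul_of_nonneg_left h15 (by positivity)
          _ = L ^ 2 / r ^ 2 * F y := by ring
      have h16 : P y * ‖lap u y‖ ^ 2 ≤ P y * (L ^ 2 / r ^ 2 * F y) :=
        mul_le_mul_of_nonneg_left h12 hP0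
      have h17 : S y = 2 * (P y * (L ^ 2 / r ^ 2 * F y)) + 4 * (gsq ζ y * F y) := by
        rw [hSdef]
        ring
      rw [h10, h17]
      have h18 : 4 * nsq (fderiv ℝ ζ y) * F y = 4 * (gsq ζ y * F y) := by
        unfold gsq
        ring
      have h19 : ζ y ^ 2 * hsq u y = P y * hsq u y := rfl
      rw [h18, h19] at h9
      linarith
    · have h1 : ζ y = 0 := hζz y hy
      have h2 : P =ᶠ[𝓝 y] fun _ => 0 := by
        filter_upwards [hζ0 y hy] with w hw
        rw [hPdef]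
        simp only [hw]
        ring
      have h3 : fderiv ℝ P y = 0 := by
        rw [h2.fderiv_eq]
        exact fderiv_const_apply _
      have h4 : gsq ζ y = 0 := by
        unfold gsq
        rw [hDζ0 y (hζ0 y hy)]
        unfold nsq
        simp
      have h5 : P y = 0 := h2.self_of_nhds
      rw [hSdef]
      simp [h3, h4, h5]
  have iG : Integrable fun y =>
      P y * lap F y + ∑ i : Fin n, fderiv ℝ P y (bv i) * fderiv ℝ F y (bv i) := iG1.add iG2
  have h1 : ∫ y, P y * hsq u y ≤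
      ∫ y, ((P y * lap F y + ∑ i : Fin n, fderiv ℝ P y (bv i) * fderiv ℝ F y (bv i)) + S y) :=
    integral_mono iA (iG.add iB) key
  have h2 : ∫ y, ((P y * lap F y + ∑ i : Fin n, fderiv ℝ P y (bv i) * fderiv ℝ F y (bv i)) +
        S y) = ∫ y, S y := by
    rw [integral_add iG iB, integral_add iG1 iG2, hg]
    ring
  rw [h2] at h1
  have hSU : ∀ y, ENNReal.ofReal (S y) ≤
      U.indicator (fun y => ENNReal.ofReal ((2 * L ^ 2 + 4 * L1 ^ 2) / r ^ 2) *
        ENNReal.ofReal (en u y)) y := by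
    intro y
    by_cases hy : y ∈ U
    · rw [indicator_of_mem hy, ← ENNReal.ofReal_mul (by positivity), hFen]
      refine ENNReal.ofReal_le_ofReal ?_
      have h3 : P y ≤ 1 := by
        rw [hPdef]
        exact pow_le_one₀ (hζ01 y).1 (hζ01 y).2
      have h4 : P y * F y ≤ F y := by
        have := mul_le_mul_of_nonneg_right h3 (hn0 y)
        linarith
      have h5 : gsq ζ y * F y ≤ L1 ^ 2 / r ^ 2 * F y :=
        mul_le_mul_of_nonneg_right (hgζ y) (hn0 y)
      have h6 : 2 * L ^ 2 / r ^ 2 * (P y * F y) ≤ 2 * L ^ 2 / r ^ 2 * F y :=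
        mul_le_mul_of_nonneg_left h4 (by positivity)
      have h7 : (2 * L ^ 2 + 4 * L1 ^ 2) / r ^ 2 * F y =
          2 * L ^ 2 / r ^ 2 * F y + 4 * (L1 ^ 2 / r ^ 2 * F y) := by ring
      rw [h7, hSdef]
      linarith
    · rw [indicator_of_notMem hy]
      have h4 : gsq ζ y = 0 := by
        unfold gsq
        rw [hDζ0 y (hζ0 y hy)]
        unfold nsq
        simp
      have h5 : P y = 0 := by rw [hPdef]; simp only [hζz y hy]; ring
      rw [hSdef]
      simp [h4, h5]
  have hS0 : ∀ y, 0 ≤ S y := fun y => by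
    rw [hSdef]
    have h3 : 0 ≤ P y := by rw [hPdef]; positivity
    have h4 := hn0 y
    have h5 := hgζ0 y
    positivity
  calc ∫⁻ y in ball x (r / 2), ENNReal.ofReal (hsq u y)
      ≤ ∫⁻ y in ball x (r / 2), ENNReal.ofReal (P y * hsq u y) := by
        refine setLIntegral_mono' measurableSet_ball fun y hy => ?_
        rw [hPdef]
        simp only [hζ1 y hy, one_pow, one_mul, le_refl]
    _ ≤ ∫⁻ y, ENNReal.ofReal (P y * hsq u y) := setLIntegral_le_lintegral _ _
    _ = ENNReal.ofReal (∫ y, P y * hsq u y) := by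
        rw [ofReal_integral_eq_lintegral_ofReal iA]
        exact Eventually.of_forall fun y => mul_nonneg (by rw [hPdef]; positivity) (hh0 y)
    _ ≤ ENNReal.ofReal (∫ y, S y) := ENNReal.ofReal_le_ofReal h1
    _ = ∫⁻ y, ENNReal.ofReal (S y) := by
        rw [ofReal_integral_eq_lintegral_ofReal iB]
        exact Eventually.of_forall hS0
    _ ≤ ∫⁻ y, U.indicator (fun y => ENNReal.ofReal ((2 * L ^ 2 + 4 * L1 ^ 2) / r ^ 2) *
          ENNReal.ofReal (en u y)) y := lintegral_mono hSU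
    _ = ∫⁻ y in U, ENNReal.ofReal ((2 * L ^ 2 + 4 * L1 ^ 2) / r ^ 2) *
          ENNReal.ofReal (en u y) := lintegral_indicator hU.measurableSet _
    _ = _ := lintegral_const_mul' _ _ ENNReal.ofReal_ne_top

end Pool.Agent.H27.SH
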